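import Pool.Agent.N745.NT.Hyp

/-!
# Points with a very small truncated counting function: `q` hyperplanes in general position

Let `D` be the sum of `q ≥ m + 3` hyperplanes `L_i = 0` in general position in `ℙ^m` over `ℚ`,
`m ≥ 2`, so that `h_{K + D} = (q - m - 1) h`. We consider the rational points `x` which are integral
with respect to the intersections of two of the hyperplanes: for coprime integral coordinates the
greatest common divisor of any two of the numbers `L_i(x)` divides `Δ`. The truncated inequality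
`(q - m - 1 - ε) h(x) ≤ N_S^{(1)}(D, x) + O(1)` would follow for all of them outside a closed
subset from Vojta's conjecture; we count the points which violate even `h(x) / M + c ≤ N^{(1)}_S`.

The `m + 1` values with the smallest radicals determine `x`, so there are at most
`B ^ ((m + 1) / (q M) + o(1))` such points of height at most `B`. We prove for `M ≥ M₀(ε)` the
bound `B ^ ((κ + ε) / M)` with `κ = max (m / q, (2 m + 1 - q) / m)`; thus `κ = m / q` for
`q ≥ 2 m + 1`.
-/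

set_option autoImplicit false

namespace Pool.Agent.Results.MP_44a246_nt.HyperplanesLargeExponent

open Finset

/-- the value of the linear form with coefficients `a` at `x` -/
def form {m : ℕ} (a x : Fin (m + 1) → ℤ) : ℤ := ∑ j, a j * x j

/-- coprime integer coordinates: each point of `ℙ^m(ℚ)` has exactly two such vectors, `x` and
`-x` -/
def Primitive {m : ℕ} (x : Fin (m + 1) → ℤ) : Prop := ∀ d : ℤ, (∀ j, d ∣ x j) → IsUnit d

/-- the height `h(x) = log max |x_j|` of a point with coprime integer coordinates -/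
noncomputable def h {m : ℕ} (x : Fin (m + 1) → ℤ) : ℝ :=
  Real.log ((Finset.univ.sup fun j => (x j).natAbs : ℕ) : ℝ)

/-- the hyperplanes `L i = 0` are in general position: any `m + 1` of the linear forms are
linearly independent -/
def GeneralPosition {m q : ℕ} (L : Fin q → Fin (m + 1) → ℤ) : Prop :=
  ∀ s : Fin (m + 1) → Fin q, Function.Injective s → (Matrix.of fun a b => L (s a) b).det ≠ 0

/-- the truncated counting function `N_S^{(1)}(D, x)`, `D` the sum of the hyperplanes `L i = 0`: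
the sum of `log p` over the primes `p` outside `S` that divide one of the values `L i (x)` -/
noncomputable def N1 {m q : ℕ} (L : Fin q → Fin (m + 1) → ℤ) (S : Finset ℕ)
    (x : Fin (m + 1) → ℤ) : ℝ :=
  ∑ p ∈ (∏ i, form (L i) x).natAbs.primeFactors \ S, Real.log p

/-- the points off `D` of height at most `log B`, integral with respect to the intersections of two
of the hyperplanes, with `N_S^{(1)}(D, x) ≤ h(x) / M + c` -/
def Exceptional {m q : ℕ} (L : Fin q → Fin (m + 1) → ℤ) (Δ : ℕ) (S : Finset ℕ) (M c : ℝ)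
    (B : ℕ) : Set (Fin (m + 1) → ℤ) :=
  {x | Primitive x ∧ (∀ i, form (L i) x ≠ 0) ∧
    (∀ i j, i ≠ j → Int.gcd (form (L i) x) (form (L j) x) ∣ Δ) ∧ h x ≤ Real.log B ∧
    N1 L S x ≤ h x / M + c}

/-- `κ = max (m / q, (2 m + 1 - q) / m)` -/
noncomputable def kappa (m q : ℕ) : ℝ := max ((m : ℝ) / q) ((2 * (m : ℝ) + 1 - q) / m)

open Pool.Agent.TH867.HP Pool.Agent.N745.NT Pool.Agent.N745.T1

theorem kappa_spec {m q : ℕ} (hm : 2 ≤ m) (hq : m + 3 ≤ q) : 0 ≤ kappa m q ∧ kappa m q ≤ 1 ∧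
    (m : ℝ) ≤ kappa m q * q ∧ (1 - kappa m q) * m ≤ (q : ℝ) - (m + 1) := by
  have hmR : (2 : ℝ) ≤ m := by exact_mod_cast hm
  have hqR : (m : ℝ) + 3 ≤ q := by exact_mod_cast hq
  have hq0 : (0 : ℝ) < q := by linarith
  have hm0 : (0 : ℝ) < m := by linarith
  have h1 : (m : ℝ) / q ≤ kappa m q := le_max_left _ _
  have h2 : (2 * (m : ℝ) + 1 - q) / m ≤ kappa m q := le_max_right _ _
  rw [div_le_iff₀ hq0] at h1
  rw [div_le_iff₀ hm0] at h2
  refine ⟨le_trans (by positivity) (le_max_left ((m : ℝ) / q) _), ?_, h1, by linarith⟩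
  unfold kappa
  apply max_le
  · rw [div_le_one hq0]
    linarith
  · rw [div_le_one hm0]
    linarith

theorem ht_eq {m : ℕ} (x : Fin (m + 1) → ℤ) : h x = Real.log (ht x : ℝ) := rfl

theorem ev_eq {m q : ℕ} (L : Fin q → Fin (m + 1) → ℤ) (x : Fin (m + 1) → ℤ) (i : Fin q) :
    form (L i) x = ev L x i := rfl

/-- the radical is bounded by the truncated counting function -/
theorem radv_le {m q : ℕ} (L : Fin q → Fin (m + 1) → ℤ) (S : Finset ℕ) (x : Fin (m + 1) → ℤ) :
    (radv L x : ℝ) ≤ ((∏ p ∈ S, (p + 1) : ℕ) : ℝ) * Real.exp (N1 L S x) := by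
  have h1 : (∏ i, va L x i) = (∏ i, form (L i) x).natAbs := by
    rw [← Int.natAbsHom_apply, map_prod]
    rfl
  unfold radv N1
  rw [h1]
  set n := (∏ i, form (L i) x).natAbs
  have hp0 : ∀ p ∈ n.primeFactors \ S, (0 : ℝ) < (p : ℝ) := fun p hp => by
    exact_mod_cast (Nat.prime_of_mem_primeFactors (mem_sdiff.1 hp).1).pos
  have h2 : Real.exp (∑ p ∈ n.primeFactors \ S, Real.log p) = ∏ p ∈ n.primeFactors \ S, (p : ℝ) := by
    rw [Real.exp_sum]
    exact prod_congr rfl fun p hp => Real.exp_log (hp0 p hp)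
  rw [h2]
  have h3 : Pool.Agent.H785R2.ABC.rad n = (∏ p ∈ n.primeFactors ∩ S, p) *
      ∏ p ∈ n.primeFactors \ S, p := by
    unfold Pool.Agent.H785R2.ABC.rad
    rw [← prod_union (disjoint_left.2 fun p hp hp' => (mem_sdiff.1 hp').2 (mem_inter.1 hp).2)]
    congr 1
    ext p
    rw [mem_union, mem_inter, mem_sdiff]
    tauto
  have h4 : (∏ p ∈ n.primeFactors ∩ S, p) ≤ ∏ p ∈ S, (p + 1) := by
    calc (∏ p ∈ n.primeFactors ∩ S, p) ≤ ∏ p ∈ n.primeFactors ∩ S, (p + 1) :=
          prod_le_prod' fun p _ => Nat.le_succ p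
      _ ≤ ∏ p ∈ S, (p + 1) :=
          prod_le_prod_of_subset_of_one_le' inter_subset_right fun p _ _ => by omega
  rw [h3]
  push_cast
  have h5 : (((∏ p ∈ n.primeFactors ∩ S, p : ℕ)) : ℝ) ≤ ((∏ p ∈ S, (p + 1) : ℕ) : ℝ) := by
    exact_mod_cast h4
  push_cast at h5
  exact mul_le_mul_of_nonneg_right h5 (prod_nonneg fun p _ => Nat.cast_nonneg _)

/-- a vector of small height -/
theorem card_ht_le {m : ℕ} (T : Finset (Fin (m + 1) → ℤ)) (K : ℕ) (hT : ∀ x ∈ T, ht x ≤ K) :
    (T.card : ℝ) ≤ (2 * (K : ℝ) + 1) ^ (m + 1) := by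
  have h1 : T ⊆ Fintype.piFinset fun _ : Fin (m + 1) => Icc (-(K : ℤ)) K := by
    intro x hx
    rw [Fintype.mem_piFinset]
    intro j
    have h2 := (le_ht x j).trans (hT x hx)
    rw [mem_Icc]
    omega
  have h2 := card_le_card h1
  rw [Fintype.card_piFinset] at h2
  simp only [Int.card_Icc, prod_const, card_univ, Fintype.card_fin] at h2
  have h3 : ((K : ℤ) + 1 - -(K : ℤ)).toNat = 2 * K + 1 := by omega
  rw [h3] at h2
  calc (T.card : ℝ) ≤ (((2 * K + 1) ^ (m + 1) : ℕ) : ℝ) := by exact_mod_cast h2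
    _ = _ := by push_cast; ring

theorem exceptional_finite {m q : ℕ} (L : Fin q → Fin (m + 1) → ℤ) (Δ : ℕ) (S : Finset ℕ)
    (M c : ℝ) (B : ℕ) (hB : 1 ≤ B) : (Exceptional L Δ S M c B).Finite := by
  apply Set.Finite.subset (Finset.finite_toSet
    (Fintype.piFinset fun _ : Fin (m + 1) => Icc (-(B : ℤ)) B))
  intro x hx
  rw [mem_coe, Fintype.mem_piFinset]
  intro j
  have h1 := hx.2.2.2.1
  have h2 : ht x ≤ B := by
    rcases Nat.eq_zero_or_pos (ht x) with h0 | h0
    · omega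
    · rw [ht_eq, Real.log_le_log_iff (by exact_mod_cast h0) (by exact_mod_cast hB)] at h1
      exact_mod_cast h1
  have h3 := (le_ht x j).trans h2
  rw [mem_Icc]
  omega

theorem result : ∀ (m q : ℕ), 2 ≤ m → m + 3 ≤ q → ∀ L : Fin q → Fin (m + 1) → ℤ,
    GeneralPosition L → ∀ Δ : ℕ, 1 ≤ Δ → ∀ ε : ℝ, 0 < ε → ∃ M₀ : ℝ, ∀ M : ℝ, M₀ ≤ M →
      ∀ (S : Finset ℕ) (c : ℝ), ∃ C : ℝ, ∀ B : ℕ, 1 ≤ B →
        (Exceptional L Δ S M c B).Finite ∧
        ((Exceptional L Δ S M c B).ncard : ℝ) ≤ C * (B : ℝ) ^ ((kappa m q + ε) / M) := by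
  intro m q hm hq L hL Δ hΔ ε hε
  classical
  obtain ⟨k0, k1, k2, k3⟩ := kappa_spec hm hq
  obtain ⟨E, hE, hsh⟩ := shell (L := L) hL (by omega) (by omega) hΔ (kappa m q) k0 k1 k2 k3
    (ε / 2) (half_pos hε)
  refine ⟨2 * E + 1, fun M hM S c => ?_⟩
  have hM0 : 0 < M := by linarith
  obtain ⟨D, hD, hbd⟩ := hsh (M * (1 + K2 L)) (by positivity)
  set A0 : ℝ := 1 + ((∏ p ∈ S, (p + 1) : ℕ) : ℝ) * Real.exp c with hA0
  have hA00 : (0 : ℝ) ≤ ((∏ p ∈ S, (p + 1) : ℕ) : ℝ) * Real.exp c := by positivity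
  have hA1 : 1 ≤ A0 := by rw [hA0]; linarith
  obtain ⟨G0, hG0⟩ := exists_nat_ge (2 * ((K1 L : ℝ) * Δ * A0 ^ E) ^ 2)
  obtain ⟨Dp, hDp, hp⟩ := polylog_le 0 1 (e := ε / 2 / M) (by positivity)
  have hηM : 0 ≤ (kappa m q + ε / 2) / M := by positivity
  set K : ℝ := Dp * (D * (A0 * 2) ^ (kappa m q + ε / 2)) with hK
  have hK0 : 0 ≤ K := by rw [hK]; positivity
  refine ⟨(2 * (G0 : ℝ) + 1) ^ (m + 1) + K, fun B hB =>
    ⟨exceptional_finite L Δ S M c B hB, ?_⟩⟩
  have hBR : (1 : ℝ) ≤ B := by exact_mod_cast hB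
  have hB0 : (0 : ℝ) < B := by linarith
  rw [Set.ncard_eq_toFinset_card _ (exceptional_finite L Δ S M c B hB)]
  set T := (exceptional_finite L Δ S M c B hB).toFinset with hT
  have hmem : ∀ x ∈ T, x ∈ Exceptional L Δ S M c B := fun x hx => by
    rw [hT, Set.Finite.mem_toFinset] at hx
    exact hx
  have hht0 : ∀ x ∈ T, 1 ≤ ht x := by
    intro x hx
    obtain ⟨g1, -⟩ := hmem x hx
    by_contra hcon
    have h0 : ht x = 0 := by omega
    have h1 := g1 2 (fun j => by
      have h2 := le_ht x j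
      have h3 : x j = 0 := by omega
      rw [h3]
      exact dvd_zero _)
    rw [Int.isUnit_iff] at h1
    omega
  have hhtB : ∀ x ∈ T, ht x ≤ B := by
    intro x hx
    have h1 := (hmem x hx).2.2.2.1
    rw [ht_eq, Real.log_le_log_iff (by exact_mod_cast hht0 x hx) hB0] at h1
    exact_mod_cast h1
  set T1 := T.filter fun x => ht x ≤ G0 with hT1
  set T2 := T.filter fun x => ¬ ht x ≤ G0 with hT2
  have hsplit : (T.card : ℝ) = T1.card + T2.card := by
    rw [hT1, hT2]
    exact_mod_cast (card_filter_add_card_filter_not _).symm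
  have hb1 : (T1.card : ℝ) ≤ (2 * (G0 : ℝ) + 1) ^ (m + 1) :=
    card_ht_le T1 G0 fun x hx => (mem_filter.1 hx).2
  set Bd : ℝ := D * (A0 * 2) ^ (kappa m q + ε / 2) * (B : ℝ) ^ ((kappa m q + ε / 2) / M) with hBd
  have hshell : ∀ j ∈ range (Nat.log 2 B + 1),
      ((T2.filter fun x => Nat.log 2 (ht x) = j).card : ℝ) ≤ Bd := by
    intro j hj
    rw [mem_range] at hj
    have hH1 : (1 : ℝ) ≤ (2 ^ (j + 1) : ℕ) := by exact_mod_cast Nat.one_le_two_pow
    have hH0 : (0 : ℝ) < (2 ^ (j + 1) : ℕ) := by linarith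
    set Y : ℝ := A0 * ((2 ^ (j + 1) : ℕ) : ℝ) ^ (1 / M) with hY
    have hHM : (1 : ℝ) ≤ ((2 ^ (j + 1) : ℕ) : ℝ) ^ (1 / M) := Real.one_le_rpow hH1 (by positivity)
    have hY1 : 1 ≤ Y := one_le_mul_of_one_le_of_one_le hA1 hHM
    have hY0 : 0 < Y := by linarith
    have hHB : ((2 ^ (j + 1) : ℕ) : ℝ) ≤ 2 * B := by
      have h1 : 2 ^ j ≤ B := (Nat.pow_le_pow_right (by norm_num) (by omega)).trans
        (Nat.pow_log_le_self 2 (by omega))
      have h2 : 2 ^ (j + 1) ≤ 2 * B := by rw [pow_succ]; omega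
      exact_mod_cast h2
    have hbj := hbd Y (2 ^ (j + 1)) (T2.filter fun x => Nat.log 2 (ht x) = j) hY1 (by
      have h1 : ((2 ^ (j + 1) : ℕ) : ℝ) ^ (1 / M) ≤ Y := by
        rw [hY]
        exact le_mul_of_one_le_left (by positivity) hA1
      have h2 : (K2 L : ℝ) ≤ ((2 ^ (j + 1) : ℕ) : ℝ) ^ (K2 L : ℝ) := by
        rw [Real.rpow_natCast]
        have h3 : K2 L ≤ (2 ^ (j + 1)) ^ K2 L := by
          calc K2 L ≤ 2 ^ K2 L := Nat.lt_two_pow_self.le
            _ ≤ (2 ^ (j + 1)) ^ K2 L := Nat.pow_le_pow_left (by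
                calc 2 = 2 ^ 1 := (pow_one 2).symm
                  _ ≤ 2 ^ (j + 1) := Nat.pow_le_pow_right (by norm_num) (by omega)) _
        exact_mod_cast h3
      calc ((K2 L * 2 ^ (j + 1) : ℕ) : ℝ) = ((2 ^ (j + 1) : ℕ) : ℝ) * (K2 L : ℝ) := by
            push_cast; ring
        _ ≤ ((2 ^ (j + 1) : ℕ) : ℝ) * ((2 ^ (j + 1) : ℕ) : ℝ) ^ (K2 L : ℝ) := by gcongr
        _ = ((2 ^ (j + 1) : ℕ) : ℝ) ^ (1 + (K2 L : ℝ)) := by
            rw [Real.rpow_add hH0, Real.rpow_one]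
        _ = (((2 ^ (j + 1) : ℕ) : ℝ) ^ (1 / M)) ^ (M * (1 + K2 L)) := by
            rw [← Real.rpow_mul hH0.le]
            congr 1
            field_simp
        _ ≤ Y ^ (M * (1 + K2 L)) := Real.rpow_le_rpow (by positivity) h1 (by positivity)) (by
      intro x hx
      obtain ⟨hx2, hxj⟩ := mem_filter.1 hx
      obtain ⟨hxT, hxG⟩ := mem_filter.1 hx2
      obtain ⟨g1, g2, g3, g4, g5⟩ := hmem x hxT
      have hx1 := hht0 x hxT
      have hxH : ht x < 2 ^ (j + 1) := by
        have := Nat.lt_pow_succ_log_self (b := 2) (by norm_num) (ht x)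
        rwa [hxj] at this
      have hHx : 2 ^ (j + 1) ≤ 2 * ht x := by
        have := Nat.pow_log_le_self 2 (by omega : ht x ≠ 0)
        rw [hxj] at this
        rw [pow_succ]
        omega
      have hHxR : ((2 ^ (j + 1) : ℕ) : ℝ) ≤ 2 * (ht x : ℝ) := by exact_mod_cast hHx
      have hx1R : (1 : ℝ) ≤ ht x := by exact_mod_cast hx1
      refine ⟨g2, hxH.le, ?_, fun i i' hii => g3 i i' hii, ?_⟩
      · -- the height is large
        have e1 : Y ^ E ≤ A0 ^ E * ((2 ^ (j + 1) : ℕ) : ℝ) ^ ((1 : ℝ) / 2) := by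
          rw [hY, Real.mul_rpow (by linarith) (by positivity), ← Real.rpow_mul hH0.le]
          apply mul_le_mul_of_nonneg_left _ (by positivity)
          apply Real.rpow_le_rpow_of_exponent_le hH1
          rw [one_div_mul_eq_div, div_le_div_iff₀ hM0 (by norm_num)]
          linarith
        have e2 : ((2 ^ (j + 1) : ℕ) : ℝ) ^ ((1 : ℝ) / 2) ≤ (2 * (ht x : ℝ)) ^ ((1 : ℝ) / 2) :=
          Real.rpow_le_rpow hH0.le hHxR (by norm_num)
        obtain ⟨Q, hQ⟩ : ∃ Q : ℝ, Q = (K1 L : ℝ) * Δ * A0 ^ E := ⟨_, rfl⟩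
        have hQ0 : 0 ≤ Q := by rw [hQ]; positivity
        have e3 : (G0 : ℝ) < ht x := by exact_mod_cast not_le.1 hxG
        have e4 : 2 * Q ^ 2 < ht x := by
          rw [hQ]
          linarith
        have e5 : (K1 L : ℝ) * Δ * Y ^ E ≤ Q * (2 * (ht x : ℝ)) ^ ((1 : ℝ) / 2) := by
          calc (K1 L : ℝ) * Δ * Y ^ E
              ≤ (K1 L : ℝ) * Δ * (A0 ^ E * (2 * (ht x : ℝ)) ^ ((1 : ℝ) / 2)) := by
                apply mul_le_mul_of_nonneg_left _ (by positivity)
                refine e1.trans ?_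
                apply mul_le_mul_of_nonneg_left e2 (by positivity)
            _ = _ := by rw [hQ]; ring
        refine e5.trans_lt ?_
        rw [← Real.sqrt_eq_rpow]
        have e6 : (Q * Real.sqrt (2 * (ht x : ℝ))) ^ 2 < (ht x : ℝ) ^ 2 := by
          rw [mul_pow, Real.sq_sqrt (by positivity)]
          nlinarith
        exact lt_of_pow_lt_pow_left₀ 2 (by positivity) e6
      · -- the radical is small
        have e1 := radv_le L S x
        have e2 : Real.exp (N1 L S x) ≤ (ht x : ℝ) ^ (1 / M) * Real.exp c := by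
          calc Real.exp (N1 L S x) ≤ Real.exp (h x / M + c) := Real.exp_le_exp.2 g5
            _ = (ht x : ℝ) ^ (1 / M) * Real.exp c := by
                rw [Real.exp_add, ht_eq, Real.rpow_def_of_pos (by linarith)]
                congr 2
                ring
        have e3 : (ht x : ℝ) ^ (1 / M) ≤ ((2 ^ (j + 1) : ℕ) : ℝ) ^ (1 / M) := by
          apply Real.rpow_le_rpow (by linarith) _ (by positivity)
          exact_mod_cast hxH.le
        calc (radv L x : ℝ) ≤ ((∏ p ∈ S, (p + 1) : ℕ) : ℝ) * Real.exp (N1 L S x) := e1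
          _ ≤ ((∏ p ∈ S, (p + 1) : ℕ) : ℝ) * (((2 ^ (j + 1) : ℕ) : ℝ) ^ (1 / M) * Real.exp c) := by
              apply mul_le_mul_of_nonneg_left _ (Nat.cast_nonneg _)
              refine e2.trans ?_
              apply mul_le_mul_of_nonneg_right e3 (Real.exp_pos _).le
          _ = (((∏ p ∈ S, (p + 1) : ℕ) : ℝ) * Real.exp c) *
              ((2 ^ (j + 1) : ℕ) : ℝ) ^ (1 / M) := by ring
          _ ≤ A0 * ((2 ^ (j + 1) : ℕ) : ℝ) ^ (1 / M) := by
              apply mul_le_mul_of_nonneg_right _ (by positivity)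
              rw [hA0]; linarith)
    refine hbj.trans ?_
    rw [hBd, mul_assoc]
    apply mul_le_mul_of_nonneg_left _ hD.le
    have hYB : Y ≤ (A0 * 2) * (B : ℝ) ^ (1 / M) := by
      have e1 : ((2 ^ (j + 1) : ℕ) : ℝ) ^ (1 / M) ≤ 2 * (B : ℝ) ^ (1 / M) := by
        calc ((2 ^ (j + 1) : ℕ) : ℝ) ^ (1 / M) ≤ (2 * (B : ℝ)) ^ (1 / M) :=
              Real.rpow_le_rpow hH0.le hHB (by positivity)
          _ = 2 ^ (1 / M) * (B : ℝ) ^ (1 / M) := Real.mul_rpow (by norm_num) hB0.le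
          _ ≤ 2 ^ (1 : ℝ) * (B : ℝ) ^ (1 / M) := by
              apply mul_le_mul_of_nonneg_right _ (by positivity)
              apply Real.rpow_le_rpow_of_exponent_le (by norm_num)
              rw [div_le_one hM0]
              linarith
          _ = 2 * (B : ℝ) ^ (1 / M) := by rw [Real.rpow_one]
      calc Y ≤ A0 * (2 * (B : ℝ) ^ (1 / M)) := by
            rw [hY]
            apply mul_le_mul_of_nonneg_left e1 (by linarith)
        _ = _ := by ring
    calc Y ^ (kappa m q + ε / 2) ≤ ((A0 * 2) * (B : ℝ) ^ (1 / M)) ^ (kappa m q + ε / 2) :=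
          Real.rpow_le_rpow hY0.le hYB (by positivity)
      _ = (A0 * 2) ^ (kappa m q + ε / 2) * ((B : ℝ) ^ (1 / M)) ^ (kappa m q + ε / 2) :=
          Real.mul_rpow (by positivity) (by positivity)
      _ = _ := by
          rw [← Real.rpow_mul hB0.le]
          congr 2
          field_simp
  have hb2 : (T2.card : ℝ) ≤ K * (B : ℝ) ^ ((kappa m q + ε) / M) := by
    have h1 : T2.card = ∑ j ∈ range (Nat.log 2 B + 1),
        (T2.filter fun x => Nat.log 2 (ht x) = j).card := by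
      apply card_eq_sum_card_fiberwise
      intro x hx
      have hx' := (mem_filter.1 (mem_coe.1 hx)).1
      have := Nat.log_mono_right (b := 2) (hhtB x hx')
      exact mem_coe.2 (mem_range.2 (Nat.lt_succ_of_le this))
    have h2 : (T2.card : ℝ) ≤ ((Nat.log 2 B + 1 : ℕ) : ℝ) * Bd := by
      rw [h1]
      push_cast
      calc ∑ j ∈ range (Nat.log 2 B + 1),
            ((T2.filter fun x => Nat.log 2 (ht x) = j).card : ℝ)
          ≤ ∑ _j ∈ range (Nat.log 2 B + 1), Bd := sum_le_sum hshell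
        _ = _ := by
            rw [sum_const, card_range, nsmul_eq_mul]
            push_cast
            ring
    have h3 : ((Nat.log 2 B + 1 : ℕ) : ℝ) ≤ Dp * (B : ℝ) ^ (ε / 2 / M) := by
      have h4 := hp B hB
      rw [pow_one] at h4
      refine le_trans ?_ h4
      exact_mod_cast (by omega : Nat.log 2 B + 1 ≤ 2 * (0 + Nat.log 2 B) + 1)
    have hBd0 : 0 ≤ Bd := by rw [hBd]; positivity
    calc (T2.card : ℝ) ≤ ((Nat.log 2 B + 1 : ℕ) : ℝ) * Bd := h2
      _ ≤ (Dp * (B : ℝ) ^ (ε / 2 / M)) * Bd := mul_le_mul_of_nonneg_right h3 hBd0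
      _ = K * ((B : ℝ) ^ (ε / 2 / M) * (B : ℝ) ^ ((kappa m q + ε / 2) / M)) := by
          rw [hK, hBd]; ring
      _ = K * (B : ℝ) ^ ((kappa m q + ε) / M) := by
          rw [← Real.rpow_add hB0]
          congr 2
          ring
  have hone : (1 : ℝ) ≤ (B : ℝ) ^ ((kappa m q + ε) / M) := Real.one_le_rpow hBR (by positivity)
  rw [hsplit]
  calc (T1.card : ℝ) + T2.card
      ≤ (2 * (G0 : ℝ) + 1) ^ (m + 1) + K * (B : ℝ) ^ ((kappa m q + ε) / M) := add_le_add hb1 hb2
    _ ≤ (2 * (G0 : ℝ) + 1) ^ (m + 1) * (B : ℝ) ^ ((kappa m q + ε) / M) +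
        K * (B : ℝ) ^ ((kappa m q + ε) / M) := by
        apply add_le_add_left
        exact le_mul_of_one_le_right (by positivity) hone
    _ = _ := by ring

end Pool.Agent.Results.MP_44a246_nt.HyperplanesLargeExponent
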