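import Pool.Agent.N745.NT.CntR

/-!
# Exceptions to Oesterlé's inequality with a given member: the exponent `1/4`

Let `N` be a positive integer, `M` large. For an abc-triple `(a, b, c)` with `c ≤ X` which has `N`
as a member and violates `c < rad (abc) ^ M`, the product of the radicals of the other two members
is at most `Q = X ^ (1/M) / rad N`; as the member with the smaller radical determines the triple
there are at most `Q ^ (1/2) X ^ o(1)` such triples. We prove the bound `Q ^ (1/4) X ^ (ε/M)`,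
uniformly in `N`. For `N = c` this is a bound for the number of the representations `c = a + b` with
`rad (abc) ^ M ≤ c`, for `N = 1` one for the number of the `n < X` with `rad (n (n + 1)) ^ M ≤ n + 1`.

Proof: if both other members are divisible by a high power of an integer in a short window, the
member `a` with the smaller radical is in a residue class modulo a number which is so large that in
the energy bound only the diagonal counts. This gives `(rad a) ^ (1/2) ≤ Q ^ (1/4)`. Otherwise one of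
the two members is composed of boundedly many small integers; then there are few such triples.
-/

set_option autoImplicit false

namespace Pool.Agent.Results.MP_2ec8a3_nt.OneMemberGiven

open Finset

/-- the radical: product of the distinct primes dividing `n` -/
def radical (n : ℕ) : ℕ := ∏ p ∈ n.primeFactors, p

/-- the abc-triples `(a, b, c)`: positive integers, `a + b = c`, `gcd (a, b) = 1` -/
def IsTriple (t : ℕ × ℕ × ℕ) : Prop :=
  0 < t.1 ∧ 0 < t.2.1 ∧ Nat.Coprime t.1 t.2.1 ∧ t.1 + t.2.1 = t.2.2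

/-- the radical of `abc` -/
def rad3 (t : ℕ × ℕ × ℕ) : ℕ := radical (t.1 * t.2.1 * t.2.2)

/-- the abc-triples with the member `N` and `c ≤ X` which violate `c < rad (abc) ^ M` -/
def Violating (N : ℕ) (M : ℝ) (X : ℕ) : Set (ℕ × ℕ × ℕ) :=
  {t | IsTriple t ∧ (t.1 = N ∨ t.2.1 = N ∨ t.2.2 = N) ∧ t.2.2 ≤ X ∧
    (rad3 t : ℝ) ^ M ≤ (t.2.2 : ℝ)}

theorem radical_eq (n : ℕ) : radical n = Pool.Agent.H785R2.ABC.rad n := rfl

theorem triple_coprime {t : ℕ × ℕ × ℕ} (h : IsTriple t) :
    Nat.Coprime t.1 t.2.2 ∧ Nat.Coprime t.2.1 t.2.2 := by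
  obtain ⟨h1, h2, h3, h4⟩ := h
  rw [← h4]
  constructor
  · simpa using h3
  · rw [Nat.coprime_add_self_right]
    exact h3.symm

theorem rad3_eq {t : ℕ × ℕ × ℕ} (h : IsTriple t) :
    rad3 t = radical t.1 * radical t.2.1 * radical t.2.2 := by
  obtain ⟨h5, h6⟩ := triple_coprime h
  unfold rad3
  rw [radical_eq, radical_eq, radical_eq, radical_eq,
    Pool.Agent.H705R2.ABC.PO.rad_mul_coprime (Nat.Coprime.mul_left h5 h6),
    Pool.Agent.H705R2.ABC.PO.rad_mul_coprime h.2.2.1]

theorem violating_finite (N : ℕ) (M : ℝ) (X : ℕ) : (Violating N M X).Finite := by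
  refine Set.Finite.subset (Finset.finite_toSet
      ((Finset.range (X + 1)) ×ˢ (Finset.range (X + 1)) ×ˢ (Finset.range (X + 1)))) ?_
  rintro ⟨a, b, c⟩ ⟨⟨h1, h2, h3, h4⟩, -, h5, -⟩
  simp only at h1 h2 h4 h5
  simp only [Finset.coe_product, Set.mem_prod, Finset.coe_range, Set.mem_Iio]
  omega

/-- pairs of coprime integers with `v 0 x + v 1 y = N`, `v 0, v 1 = ± 1` -/
theorem pair_count {ε : ℝ} (hε : 0 < ε) : ∃ M₀ : ℝ, 0 < M₀ ∧ ∀ M : ℝ, M₀ ≤ M → ∃ C : ℝ, 0 < C ∧
    ∀ (X : ℕ) (R : ℝ) (v : Fin 2 → ℤ) (N : ℤ) (T : Finset (ℕ × ℕ)), 1 ≤ X → 1 ≤ R →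
      (∀ i, v i = 1 ∨ v i = -1) →
      (∀ t ∈ T, (1 ≤ t.1 ∧ t.1 ≤ X) ∧ (1 ≤ t.2 ∧ t.2 ≤ X) ∧ Nat.Coprime t.1 t.2 ∧
        v 0 * t.1 + v 1 * t.2 = N ∧ ((radical t.1 : ℝ) * radical t.2 ≤ R) ∧
        (((radical t.1 : ℝ) * radical t.2) ^ M < 3 * (t.1 : ℝ) ∨
          ((radical t.1 : ℝ) * radical t.2) ^ M < 3 * (t.2 : ℝ))) →
      (T.card : ℝ) ≤ C * (X : ℝ) ^ (ε / M) * R ^ ((1 : ℝ) / 4) := by
  classical
  obtain ⟨M₀, hM₀, h⟩ := Pool.Agent.N745.NT.count_R 2 le_rfl 1 3 1 (by norm_num) le_rfl (3 / 4)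
    (by norm_num) le_rfl (by norm_num) (by norm_num) ε hε
  refine ⟨M₀, hM₀, fun M hM => ?_⟩
  obtain ⟨C, hC, hb⟩ := h M hM
  refine ⟨C, hC, ?_⟩
  intro X R v N T hX hR hv hT
  have hcard : T.card = (T.image fun t => ![t.1, t.2]).card := by
    rw [card_image_of_injective]
    rintro ⟨a, b⟩ ⟨a', b'⟩ h1
    have e0 := congrFun h1 0
    have e1 := congrFun h1 1
    simp only [Matrix.cons_val_zero, Matrix.cons_val_one] at e0 e1
    rw [e0, e1]
  rw [hcard]
  have e : (1 : ℝ) - 3 / 4 = 1 / 4 := by norm_num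
  rw [← e]
  apply hb X R v N _ hX hR
  · intro i
    rcases hv i with h1 | h1 <;> rw [h1] <;> decide
  · intro t ht
    obtain ⟨s, hs, rfl⟩ := mem_image.1 ht
    obtain ⟨⟨h1, h2⟩, ⟨h3, h4⟩, h5, h6, h7, h8⟩ := hT s hs
    have hprod : ∏ j, (Pool.Agent.H785R2.ABC.rad (![s.1, s.2] j) : ℝ) =
        (radical s.1 : ℝ) * radical s.2 := by
      rw [Fin.prod_univ_two]
      rfl
    refine ⟨⟨?_, ?_, ?_, ?_⟩, ?_, ?_⟩
    · intro i
      fin_cases i
      · exact h1
      · exact h3
    · intro i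
      fin_cases i
      · exact h2
      · exact h4
    · intro i j hij
      fin_cases i <;> fin_cases j
      · exact absurd rfl hij
      · exact h5
      · exact h5.symm
      · exact absurd rfl hij
    · rw [Fin.sum_univ_two]
      exact h6
    · rw [hprod]
      exact h7
    · rw [Nat.succ_le_iff, card_pos]
      rcases h8 with h8 | h8
      · refine ⟨0, mem_filter.2 ⟨mem_univ _, ?_⟩⟩
        rw [hprod]
        exact_mod_cast h8
      · refine ⟨1, mem_filter.2 ⟨mem_univ _, ?_⟩⟩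
        rw [hprod]
        exact_mod_cast h8

theorem result : ∀ ε : ℝ, 0 < ε → ∃ M₀ : ℝ, ∀ M : ℝ, M₀ ≤ M → ∃ C : ℝ, ∀ N X : ℕ, 1 ≤ N → 1 ≤ X →
    (Violating N M X).Finite ∧
    ((Violating N M X).ncard : ℝ) ≤
      C * (X : ℝ) ^ (ε / M) * ((X : ℝ) ^ (1 / M) / (radical N : ℝ)) ^ ((1 : ℝ) / 4) := by
  intro ε hε
  classical
  obtain ⟨M₀, hM₀, h⟩ := pair_count hε
  refine ⟨M₀, fun M hM => ?_⟩
  have hM0 : 0 < M := hM₀.trans_le hM
  obtain ⟨C, hC, hb⟩ := h M hM
  refine ⟨3 * C, fun N X hN hX => ⟨violating_finite N M X, ?_⟩⟩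
  have hX1 : (1 : ℝ) ≤ X := by exact_mod_cast hX
  have hX0 : (0 : ℝ) < X := by linarith
  have hrad1 : ∀ n, (1 : ℝ) ≤ radical n := fun n => by
    exact_mod_cast Pool.Agent.N745.NT.rad_one_le n
  obtain ⟨R, hR⟩ : ∃ R : ℝ, R = (X : ℝ) ^ (1 / M) / (radical N : ℝ) := ⟨_, rfl⟩
  have hRpos : 0 ≤ R := by
    rw [hR]
    have := hrad1 N
    positivity
  rw [← hR]
  rw [Set.ncard_eq_toFinset_card _ (violating_finite N M X)]
  set T := (violating_finite N M X).toFinset with hT
  have hmem : ∀ t ∈ T, t ∈ Violating N M X := fun t ht => by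
    rw [hT, Set.Finite.mem_toFinset] at ht
    exact ht
  rcases T.eq_empty_or_nonempty with h0 | ⟨ts, hts⟩
  · rw [h0, card_empty, Nat.cast_zero]
    positivity
  -- the radical of a violating triple
  have hrad3 : ∀ t ∈ T, (rad3 t : ℝ) ≤ (X : ℝ) ^ (1 / M) := by
    intro t ht
    obtain ⟨-, -, h3, h4⟩ := hmem t ht
    calc (rad3 t : ℝ) = ((rad3 t : ℝ) ^ M) ^ (1 / M) := by
          rw [← Real.rpow_mul (Nat.cast_nonneg _), mul_one_div_cancel hM0.ne', Real.rpow_one]
      _ ≤ (X : ℝ) ^ (1 / M) := by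
          apply Real.rpow_le_rpow (by positivity) _ (by positivity)
          exact h4.trans (by exact_mod_cast h3)
  have hsplit : ∀ t ∈ T, (rad3 t : ℝ) = radical t.1 * radical t.2.1 * radical t.2.2 := by
    intro t ht
    rw [rad3_eq (hmem t ht).1]
    push_cast
    rfl
  have hRN : ∀ x : ℝ, x * (radical N : ℝ) ≤ (X : ℝ) ^ (1 / M) → x ≤ R := by
    intro x hx
    rw [hR, le_div_iff₀ (by have := hrad1 N; linarith)]
    exact hx
  have hR1 : 1 ≤ R := by
    apply hRN
    rw [one_mul]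
    refine le_trans ?_ (hrad3 ts hts)
    rw [hsplit ts hts]
    have a1 := hrad1 ts.1
    have a2 := hrad1 ts.2.1
    have a3 := hrad1 ts.2.2
    rcases (hmem ts hts).2.1 with h1 | h1 | h1
    · rw [← h1]
      calc (radical ts.1 : ℝ) = radical ts.1 * 1 * 1 := by ring
        _ ≤ _ := by gcongr
    · rw [← h1]
      calc (radical ts.2.1 : ℝ) = 1 * radical ts.2.1 * 1 := by ring
        _ ≤ _ := by gcongr
    · rw [← h1]
      calc (radical ts.2.2 : ℝ) = 1 * 1 * radical ts.2.2 := by ring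
        _ ≤ _ := by gcongr
  set Bd : ℝ := C * (X : ℝ) ^ (ε / M) * R ^ ((1 : ℝ) / 4) with hBd
  -- `N = a`
  have hA : ((T.filter fun t => t.1 = N).card : ℝ) ≤ Bd := by
    have hcard : (T.filter fun t => t.1 = N).card =
        ((T.filter fun t => t.1 = N).image fun t => (t.2.2, t.2.1)).card := by
      rw [card_image_of_injOn]
      intro t ht t' ht' htt
      have h1 := (mem_filter.1 (mem_coe.1 ht)).2
      have h2 := (mem_filter.1 (mem_coe.1 ht')).2
      simp only [Prod.mk.injEq] at htt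
      exact Prod.ext (h1.trans h2.symm) (Prod.ext htt.2 htt.1)
    rw [hcard]
    apply hb X R ![1, -1] N _ hX hR1
    · intro i
      fin_cases i
      · exact Or.inl rfl
      · exact Or.inr rfl
    · intro s hs
      obtain ⟨t, ht, rfl⟩ := mem_image.1 hs
      obtain ⟨ht1, ht2⟩ := mem_filter.1 ht
      obtain ⟨⟨g1, g2, g3, g4⟩, g5, g6, g7⟩ := hmem t ht1
      obtain ⟨g8, g9⟩ := triple_coprime (hmem t ht1).1
      have a1 := hrad1 t.1
      have a2 := hrad1 t.2.1
      have a3 := hrad1 t.2.2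
      have hc0 : (0 : ℝ) < t.2.2 := by exact_mod_cast (by omega : 0 < t.2.2)
      refine ⟨⟨by omega, g6⟩, ⟨g2, by omega⟩, g9.symm, ?_, ?_, ?_⟩
      · show (1 : ℤ) * (t.2.2 : ℤ) + (-1) * (t.2.1 : ℤ) = N
        have : (t.1 : ℤ) = N := by exact_mod_cast ht2
        have : (t.2.2 : ℤ) = t.1 + t.2.1 := by exact_mod_cast g4.symm
        linarith
      · apply hRN
        rw [← ht2]
        refine le_trans (le_of_eq ?_) (hrad3 t ht1)
        rw [hsplit t ht1]
        ring
      · left
        have h8 : ((radical t.2.2 : ℝ) * radical t.2.1) ^ M ≤ (rad3 t : ℝ) ^ M := by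
          apply Real.rpow_le_rpow (by positivity) _ hM0.le
          rw [hsplit t ht1]
          calc (radical t.2.2 : ℝ) * radical t.2.1 = 1 * radical t.2.1 * radical t.2.2 := by ring
            _ ≤ _ := by gcongr
        show ((radical t.2.2 : ℝ) * radical t.2.1) ^ M < 3 * (t.2.2 : ℝ)
        linarith
  -- `N = b`
  have hB : ((T.filter fun t => t.2.1 = N).card : ℝ) ≤ Bd := by
    have hcard : (T.filter fun t => t.2.1 = N).card =
        ((T.filter fun t => t.2.1 = N).image fun t => (t.2.2, t.1)).card := by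
      rw [card_image_of_injOn]
      intro t ht t' ht' htt
      have h1 := (mem_filter.1 (mem_coe.1 ht)).2
      have h2 := (mem_filter.1 (mem_coe.1 ht')).2
      simp only [Prod.mk.injEq] at htt
      exact Prod.ext htt.2 (Prod.ext (h1.trans h2.symm) htt.1)
    rw [hcard]
    apply hb X R ![1, -1] N _ hX hR1
    · intro i
      fin_cases i
      · exact Or.inl rfl
      · exact Or.inr rfl
    · intro s hs
      obtain ⟨t, ht, rfl⟩ := mem_image.1 hs
      obtain ⟨ht1, ht2⟩ := mem_filter.1 ht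
      obtain ⟨⟨g1, g2, g3, g4⟩, g5, g6, g7⟩ := hmem t ht1
      obtain ⟨g8, g9⟩ := triple_coprime (hmem t ht1).1
      have a1 := hrad1 t.1
      have a2 := hrad1 t.2.1
      have a3 := hrad1 t.2.2
      have hc0 : (0 : ℝ) < t.2.2 := by exact_mod_cast (by omega : 0 < t.2.2)
      refine ⟨⟨by omega, g6⟩, ⟨g1, by omega⟩, g8.symm, ?_, ?_, ?_⟩
      · show (1 : ℤ) * (t.2.2 : ℤ) + (-1) * (t.1 : ℤ) = N
        have : (t.2.1 : ℤ) = N := by exact_mod_cast ht2
        have : (t.2.2 : ℤ) = t.1 + t.2.1 := by exact_mod_cast g4.symm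
        linarith
      · apply hRN
        rw [← ht2]
        refine le_trans (le_of_eq ?_) (hrad3 t ht1)
        rw [hsplit t ht1]
        ring
      · left
        have h8 : ((radical t.2.2 : ℝ) * radical t.1) ^ M ≤ (rad3 t : ℝ) ^ M := by
          apply Real.rpow_le_rpow (by positivity) _ hM0.le
          rw [hsplit t ht1]
          calc (radical t.2.2 : ℝ) * radical t.1 = radical t.1 * 1 * radical t.2.2 := by ring
            _ ≤ _ := by gcongr
        show ((radical t.2.2 : ℝ) * radical t.1) ^ M < 3 * (t.2.2 : ℝ)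
        linarith
  -- `N = c`
  have hD : ((T.filter fun t => t.2.2 = N).card : ℝ) ≤ Bd := by
    have hcard : (T.filter fun t => t.2.2 = N).card =
        ((T.filter fun t => t.2.2 = N).image fun t => (t.1, t.2.1)).card := by
      rw [card_image_of_injOn]
      intro t ht t' ht' htt
      have h1 := (mem_filter.1 (mem_coe.1 ht)).2
      have h2 := (mem_filter.1 (mem_coe.1 ht')).2
      simp only [Prod.mk.injEq] at htt
      exact Prod.ext htt.1 (Prod.ext htt.2 (h1.trans h2.symm))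
    rw [hcard]
    apply hb X R ![1, 1] N _ hX hR1
    · intro i
      fin_cases i
      · exact Or.inl rfl
      · exact Or.inl rfl
    · intro s hs
      obtain ⟨t, ht, rfl⟩ := mem_image.1 hs
      obtain ⟨ht1, ht2⟩ := mem_filter.1 ht
      obtain ⟨⟨g1, g2, g3, g4⟩, g5, g6, g7⟩ := hmem t ht1
      have a1 := hrad1 t.1
      have a2 := hrad1 t.2.1
      have a3 := hrad1 t.2.2
      have hc0 : (0 : ℝ) < t.2.2 := by exact_mod_cast (by omega : 0 < t.2.2)
      refine ⟨⟨g1, by omega⟩, ⟨g2, by omega⟩, g3, ?_, ?_, ?_⟩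
      · show (1 : ℤ) * (t.1 : ℤ) + 1 * (t.2.1 : ℤ) = N
        have : (t.2.2 : ℤ) = N := by exact_mod_cast ht2
        have : (t.2.2 : ℤ) = t.1 + t.2.1 := by exact_mod_cast g4.symm
        linarith
      · apply hRN
        rw [← ht2]
        refine le_trans (le_of_eq ?_) (hrad3 t ht1)
        rw [hsplit t ht1]
      · have h8 : ((radical t.1 : ℝ) * radical t.2.1) ^ M ≤ (rad3 t : ℝ) ^ M := by
          apply Real.rpow_le_rpow (by positivity) _ hM0.le
          rw [hsplit t ht1]
          calc (radical t.1 : ℝ) * radical t.2.1 = radical t.1 * radical t.2.1 * 1 := by ring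
            _ ≤ _ := by gcongr
        have h9 : (t.2.2 : ℝ) = t.1 + t.2.1 := by exact_mod_cast g4.symm
        rcases le_total t.1 t.2.1 with h10 | h10
        · right
          have h11 : (t.1 : ℝ) ≤ t.2.1 := by exact_mod_cast h10
          have h12 : (0 : ℝ) < t.1 := by exact_mod_cast g1
          show ((radical t.1 : ℝ) * radical t.2.1) ^ M < 3 * (t.2.1 : ℝ)
          linarith
        · left
          have h11 : (t.2.1 : ℝ) ≤ t.1 := by exact_mod_cast h10
          have h12 : (0 : ℝ) < t.2.1 := by exact_mod_cast g2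
          show ((radical t.1 : ℝ) * radical t.2.1) ^ M < 3 * (t.1 : ℝ)
          linarith
  have hcov : T ⊆ (T.filter fun t => t.1 = N) ∪ ((T.filter fun t => t.2.1 = N) ∪
      (T.filter fun t => t.2.2 = N)) := by
    intro t ht
    rw [mem_union, mem_union, mem_filter, mem_filter, mem_filter]
    rcases (hmem t ht).2.1 with h1 | h1 | h1
    · exact Or.inl ⟨ht, h1⟩
    · exact Or.inr (Or.inl ⟨ht, h1⟩)
    · exact Or.inr (Or.inr ⟨ht, h1⟩)
  have h1 : (T.card : ℝ) ≤ (T.filter fun t => t.1 = N).card +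
      ((T.filter fun t => t.2.1 = N).card + (T.filter fun t => t.2.2 = N).card) := by
    exact_mod_cast (card_le_card hcov).trans ((card_union_le _ _).trans
      (Nat.add_le_add_left (card_union_le _ _) _))
  calc (T.card : ℝ) ≤ Bd + (Bd + Bd) := h1.trans (add_le_add hA (add_le_add hB hD))
    _ = 3 * C * (X : ℝ) ^ (ε / M) * R ^ ((1 : ℝ) / 4) := by rw [hBd]; ring

end Pool.Agent.Results.MP_2ec8a3_nt.OneMemberGiven
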